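import Pool.Agent.W236.TZ.Defs

set_option autoImplicit false

open scoped Classical
open Finset

namespace Pool.Agent.W293.TZ

open Pool.Agent.W236.TZ

theorem mem_LL {n k : ℕ} {μ : Fin (k + 1) → ℕ} : μ ∈ LL n k ↔ Vd n k μ := by
  unfold LL
  rw [Finset.mem_filter, Fintype.mem_piFinset]
  constructor
  · exact fun h => h.2
  · intro h
    refine ⟨fun i => ?_, h⟩
    rw [Finset.mem_range]
    have := h.1 i
    omega

theorem up_self {k : ℕ} (μ : Fin (k + 1) → ℕ) (i : Fin (k + 1)) : up μ i i = μ i + 1 := by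
  unfold up
  rw [Function.update_self]

theorem up_ne {k : ℕ} (μ : Fin (k + 1) → ℕ) {i j : Fin (k + 1)} (h : j ≠ i) :
    up μ i j = μ j := by
  unfold up
  rw [Function.update_of_ne h]

theorem dn_self {k : ℕ} (μ : Fin (k + 1) → ℕ) (i : Fin (k + 1)) : dn μ i i = μ i - 1 := by
  unfold dn
  rw [Function.update_self]

theorem dn_ne {k : ℕ} (μ : Fin (k + 1) → ℕ) {i j : Fin (k + 1)} (h : j ≠ i) :
    dn μ i j = μ j := by
  unfold dn
  rw [Function.update_of_ne h]

theorem dn_up {k : ℕ} (μ : Fin (k + 1) → ℕ) (i : Fin (k + 1)) : dn (up μ i) i = μ := by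
  funext j
  by_cases h : j = i
  · subst h
    rw [dn_self, up_self]
    omega
  · rw [dn_ne _ h, up_ne _ h]

theorem up_dn {k : ℕ} (μ : Fin (k + 1) → ℕ) (i : Fin (k + 1)) (hi : 0 < μ i) :
    up (dn μ i) i = μ := by
  funext j
  by_cases h : j = i
  · subst h
    rw [up_self, dn_self]
    omega
  · rw [up_ne _ h, dn_ne _ h]

/-- the bijection between additions and removals -/
theorem bij {n k : ℕ} (G : Fin (k + 1) → (Fin (k + 1) → ℕ) → (Fin (k + 1) → ℕ) → ℚ) :
    (∑ μ ∈ LL n k, ∑ i : Fin (k + 1), if Vd n k (up μ i) then G i μ (up μ i) else 0) =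
      ∑ ν ∈ LL n k, ∑ i : Fin (k + 1),
        if 0 < ν i ∧ Vd n k (dn ν i) then G i (dn ν i) ν else 0 := by
  rw [Finset.sum_comm, Finset.sum_comm (s := LL n k)]
  refine Finset.sum_congr rfl fun i _ => ?_
  rw [← Finset.sum_filter, ← Finset.sum_filter]
  refine Finset.sum_nbij' (fun μ => up μ i) (fun ν => dn ν i) ?_ ?_ ?_ ?_ ?_
  · intro μ hμ
    rw [Finset.mem_filter, mem_LL] at hμ ⊢
    refine ⟨hμ.2, ?_, ?_⟩
    · rw [up_self]; omega
    · rw [dn_up]; exact hμ.1
  · intro ν hν
    rw [Finset.mem_filter, mem_LL] at hν ⊢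
    refine ⟨hν.2.2, ?_⟩
    rw [up_dn _ _ hν.2.1]
    exact hν.1
  · intro μ _
    exact dn_up μ i
  · intro ν hν
    rw [Finset.mem_filter] at hν
    exact up_dn ν i hν.2.1
  · intro μ _
    simp only [dn_up]

theorem uni : S_UNI := by
  intro n k F
  rw [bij (fun i μ _ => F i (μ i))]
  refine Finset.sum_congr rfl fun ν _ => Finset.sum_congr rfl fun i _ => ?_
  rw [dn_self]

theorem vd_min {n k : ℕ} {μ ν κ : Fin (k + 1) → ℕ} (h1 : Vd n k μ) (h2 : Vd n k ν)
    (h : ∀ i, κ i = min (μ i) (ν i)) : Vd n k κ := by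
  refine ⟨fun i => ?_, fun i j hij => ?_⟩
  · rw [h i]
    exact (min_le_left _ _).trans (h1.1 i)
  · rw [h i, h j]
    have a1 := h1.2 i j hij
    have a2 := h2.2 i j hij
    omega

theorem vd_max {n k : ℕ} {μ ν κ : Fin (k + 1) → ℕ} (h1 : Vd n k μ) (h2 : Vd n k ν)
    (h : ∀ i, κ i = max (μ i) (ν i)) : Vd n k κ := by
  refine ⟨fun i => ?_, fun i j hij => ?_⟩
  · rw [h i]
    exact max_le (h1.1 i) (h2.1 i)
  · rw [h i, h j]
    have a1 := h1.2 i j hij
    have a2 := h2.2 i j hij
    omega

/-- the exchange of the two triple sums -/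
theorem swap {n k : ℕ} (f h : (Fin (k + 1) → ℕ) → ℚ) (F : ℕ → ℕ → ℚ) (i i' : Fin (k + 1))
    (hne : i' ≠ i) :
    (∑ μ ∈ LL n k, if Vd n k (up μ i) then
        (if 0 < up μ i i' ∧ Vd n k (dn (up μ i) i') then
          F i (μ i) * f (dn (up μ i) i') * h μ else 0) else 0) =
      ∑ κ ∈ LL n k, if Vd n k (up κ i) then
        (if Vd n k (up κ i') then F i (κ i) * f (up κ i) * h (up κ i') else 0) else 0 := by
  have e1 : ∀ μ : Fin (k + 1) → ℕ, (if Vd n k (up μ i) then
        (if 0 < up μ i i' ∧ Vd n k (dn (up μ i) i') then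
          F i (μ i) * f (dn (up μ i) i') * h μ else 0) else (0 : ℚ)) =
      if Vd n k (up μ i) ∧ 0 < up μ i i' ∧ Vd n k (dn (up μ i) i') then
        F i (μ i) * f (dn (up μ i) i') * h μ else 0 := by
    intro μ
    by_cases hv : Vd n k (up μ i)
    · simp only [hv, if_true, true_and]
    · simp only [hv, if_false, false_and]
  have e2 : ∀ κ : Fin (k + 1) → ℕ, (if Vd n k (up κ i) then
        (if Vd n k (up κ i') then F i (κ i) * f (up κ i) * h (up κ i') else 0) else (0 : ℚ)) =
      if Vd n k (up κ i) ∧ Vd n k (up κ i') then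
        F i (κ i) * f (up κ i) * h (up κ i') else 0 := by
    intro κ
    rw [ite_and]
  rw [Finset.sum_congr rfl fun μ _ => e1 μ, Finset.sum_congr rfl fun κ _ => e2 κ,
    ← Finset.sum_filter, ← Finset.sum_filter]
  have c1 : ∀ μ : Fin (k + 1) → ℕ, dn (up μ i) i' = up (dn μ i') i := by
    intro μ
    funext j
    by_cases h1 : j = i'
    · subst h1
      rw [dn_self, up_ne _ hne, up_ne _ hne, dn_self]
    · rw [dn_ne _ h1]
      by_cases h2 : j = i
      · subst h2
        rw [up_self, up_self, dn_ne _ h1]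
      · rw [up_ne _ h2, up_ne _ h2, dn_ne _ h1]
  refine Finset.sum_nbij' (fun μ => dn μ i') (fun κ => up κ i') ?_ ?_ ?_ ?_ ?_
  · intro μ hμ
    rw [Finset.mem_filter, mem_LL] at hμ ⊢
    obtain ⟨hv, hv1, hpos, hv2⟩ := hμ
    rw [up_ne _ hne] at hpos
    have hv3 := hv2
    rw [c1] at hv3
    refine ⟨vd_min hv hv2 fun j => ?_, hv3, ?_⟩
    · by_cases h1 : j = i'
      · subst h1
        rw [dn_self, dn_self, up_ne _ hne]
        omega
      · rw [dn_ne _ h1, dn_ne _ h1]
        by_cases h2 : j = i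
        · subst h2
          rw [up_self]
          omega
        · rw [up_ne _ h2, min_self]
    · rw [up_dn _ _ hpos]
      exact hv
  · intro κ hκ
    rw [Finset.mem_filter, mem_LL] at hκ ⊢
    obtain ⟨hv, hv1, hv2⟩ := hκ
    refine ⟨hv2, vd_max hv1 hv2 fun j => ?_, ?_, ?_⟩
    · by_cases h2 : j = i
      · subst h2
        rw [up_self, up_self, up_ne _ hne.symm]
        omega
      · rw [up_ne _ h2, up_ne _ h2]
        by_cases h1 : j = i'
        · subst h1
          rw [up_self]
          omega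
        · rw [up_ne _ h1, max_self]
    · rw [up_ne _ hne, up_self]
      omega
    · rw [c1, dn_up]
      exact hv1
  · intro μ hμ
    rw [Finset.mem_filter] at hμ
    have hpos := hμ.2.2.1
    rw [up_ne _ hne] at hpos
    exact up_dn μ i' hpos
  · intro κ _
    exact dn_up κ i'
  · intro μ hμ
    rw [Finset.mem_filter] at hμ
    have hpos := hμ.2.2.1
    rw [up_ne _ hne] at hpos
    simp only [up_dn μ i' hpos, c1, dn_ne μ hne.symm]

theorem tog : S_TOG := by
  intro n k f h F hk hf hh
  have hL : (∑ μ ∈ LL n k, f μ * h μ *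
      ∑ i : Fin (k + 1), if Vd n k (up μ i) then F i (μ i) else 0) =
      ∑ i : Fin (k + 1), ∑ μ ∈ LL n k, if Vd n k (up μ i) then F i (μ i) * f μ * h μ else 0 := by
    rw [Finset.sum_comm]
    refine Finset.sum_congr rfl fun μ _ => ?_
    rw [Finset.mul_sum]
    refine Finset.sum_congr rfl fun i _ => ?_
    split_ifs <;> ring
  have hR : (∑ ν ∈ LL n k, f ν * h ν *
      ∑ i : Fin (k + 1), if 0 < ν i ∧ Vd n k (dn ν i) then F i (ν i - 1) else 0) =
      ∑ i : Fin (k + 1), ∑ μ ∈ LL n k,
        if Vd n k (up μ i) then F i (μ i) * f (up μ i) * h (up μ i) else 0 := by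
    have e1 := bij (n := n) (fun i μ ν => F i (μ i) * f ν * h ν)
    rw [Finset.sum_comm] at e1
    rw [e1]
    refine Finset.sum_congr rfl fun ν _ => ?_
    rw [Finset.mul_sum]
    refine Finset.sum_congr rfl fun i _ => ?_
    rw [dn_self]
    split_ifs <;> ring
  rw [hL, hR]
  -- expansion of f and h
  have hfx : ∀ (μ : Fin (k + 1) → ℕ) (i : Fin (k + 1)), Vd n k μ → Vd n k (up μ i) →
      f (up μ i) = f μ + ∑ i' ∈ Finset.univ.erase i,
        if 0 < up μ i i' ∧ Vd n k (dn (up μ i) i') then f (dn (up μ i) i') else 0 := by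
    intro μ i hμ hv
    have hne : up μ i ≠ 0 := by
      intro h0
      have := congrFun h0 i
      rw [up_self] at this
      simp at this
    rw [hf.2 _ hv hne, ← Finset.add_sum_erase _ _ (Finset.mem_univ i)]
    congr 1
    rw [dn_up, up_self, if_pos ⟨Nat.succ_pos _, hμ⟩]
  have hhx : ∀ (μ : Fin (k + 1) → ℕ) (i : Fin (k + 1)), Vd n k μ → Vd n k (up μ i) →
      h μ = h (up μ i) + ∑ i' ∈ Finset.univ.erase i,
        if Vd n k (up μ i') then h (up μ i') else 0 := by
    intro μ i hμ hv
    have hne : μ ≠ lam n k := by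
      intro h0
      have h1 := hv.1 i
      rw [up_self, h0] at h1
      unfold lam at h1
      omega
    rw [hh.2 _ hμ hne, ← Finset.add_sum_erase _ _ (Finset.mem_univ i)]
    congr 1
    rw [if_pos hv]
  have key : ∀ i : Fin (k + 1), ∀ μ ∈ LL n k,
      (if Vd n k (up μ i) then F i (μ i) * f μ * h μ else 0) =
      (if Vd n k (up μ i) then F i (μ i) * f (up μ i) * h (up μ i) else 0) +
      ((∑ i' ∈ Finset.univ.erase i, if Vd n k (up μ i) then
        (if Vd n k (up μ i') then F i (μ i) * f (up μ i) * h (up μ i') else 0) else 0) -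
      ∑ i' ∈ Finset.univ.erase i, if Vd n k (up μ i) then
        (if 0 < up μ i i' ∧ Vd n k (dn (up μ i) i') then
          F i (μ i) * f (dn (up μ i) i') * h μ else 0) else 0) := by
    intro i μ hμ
    rw [mem_LL] at hμ
    by_cases hv : Vd n k (up μ i)
    · simp only [if_pos hv]
      have e1 : ∑ i' ∈ Finset.univ.erase i,
          (if Vd n k (up μ i') then F i (μ i) * f (up μ i) * h (up μ i') else 0) =
          F i (μ i) * f (up μ i) * ∑ i' ∈ Finset.univ.erase i,
            if Vd n k (up μ i') then h (up μ i') else 0 := by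
        rw [Finset.mul_sum]
        refine Finset.sum_congr rfl fun i' _ => ?_
        split_ifs <;> ring
      have e2 : ∑ i' ∈ Finset.univ.erase i,
          (if 0 < up μ i i' ∧ Vd n k (dn (up μ i) i') then
            F i (μ i) * f (dn (up μ i) i') * h μ else 0) =
          F i (μ i) * h μ * ∑ i' ∈ Finset.univ.erase i,
            if 0 < up μ i i' ∧ Vd n k (dn (up μ i) i') then f (dn (up μ i) i') else 0 := by
        rw [Finset.mul_sum]
        refine Finset.sum_congr rfl fun i' _ => ?_
        split_ifs <;> ring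
      rw [e1, e2]
      have x1 := hfx μ i hμ hv
      have x2 := hhx μ i hμ hv
      generalize (∑ i' ∈ Finset.univ.erase i,
        if 0 < up μ i i' ∧ Vd n k (dn (up μ i) i') then f (dn (up μ i) i') else 0) = s1 at *
      generalize (∑ i' ∈ Finset.univ.erase i,
            if Vd n k (up μ i') then h (up μ i') else 0) = s2 at *
      have y1 : f μ = f (up μ i) - s1 := by linarith
      have y2 : s2 = h μ - h (up μ i) := by linarith
      rw [y1, y2]
      ring
    · simp [if_neg hv]
  have hsum : ∀ i : Fin (k + 1),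
      (∑ μ ∈ LL n k, if Vd n k (up μ i) then F i (μ i) * f μ * h μ else 0) =
      ∑ μ ∈ LL n k, if Vd n k (up μ i) then F i (μ i) * f (up μ i) * h (up μ i) else 0 := by
    intro i
    rw [Finset.sum_congr rfl (key i), Finset.sum_add_distrib, Finset.sum_sub_distrib,
      Finset.sum_comm (s := LL n k), Finset.sum_comm (s := LL n k)]
    have e1 := Finset.sum_congr (rfl : Finset.univ.erase i = Finset.univ.erase i)
      (fun i' (hi' : i' ∈ Finset.univ.erase i) =>
        swap (n := n) f h F i i' (Finset.ne_of_mem_erase hi'))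
    rw [e1, sub_self, add_zero]
  exact Finset.sum_congr rfl fun i _ => hsum i

end Pool.Agent.W293.TZ
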