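import Pool.Agent.W236.TZ.Defs

set_option autoImplicit false

open scoped Classical
open Finset

namespace Pool.Agent.W293.TZ

open Pool.Agent.W236.TZ

theorem mem_LL' {n k : ℕ} {μ : Fin (k + 1) → ℕ} : μ ∈ LL n k ↔ Vd n k μ := by
  unfold LL
  rw [Finset.mem_filter, Fintype.mem_piFinset]
  constructor
  · exact fun h => h.2
  · intro h
    refine ⟨fun i => ?_, h⟩
    rw [Finset.mem_range]
    have := h.1 i
    omega

/-- states with `c ≤ last` -/
noncomputable def qq (n k c : ℕ) : Finset (Fin (k + 1) → ℕ) :=
  (LL n k).filter (fun μ => c ≤ μ (Fin.last k))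

theorem pos_of_last {n k : ℕ} {μ : Fin (k + 1) → ℕ} (hv : Vd n k μ) {c : ℕ} (hc : 0 < c)
    (h : c ≤ μ (Fin.last k)) (i : Fin (k + 1)) : c ≤ μ i := by
  rcases eq_or_lt_of_le (Fin.le_last i) with h1 | h1
  · rw [h1]; exact h
  · have := (hv.2 i (Fin.last k) h1).resolve_left (by omega)
    omega

/-- subtract one box from every row -/
theorem card_shift (n k : ℕ) : (qq (n + 1) k 2).card = (qq n k 1).card := by
  unfold qq
  refine Finset.card_nbij' (fun μ i => μ i - 1) (fun μ i => μ i + 1) ?_ ?_ ?_ ?_
  · intro μ hμ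
    rw [Finset.mem_coe, Finset.mem_filter, mem_LL'] at hμ ⊢
    obtain ⟨hv, h2⟩ := hμ
    have hp := pos_of_last hv (by omega) h2
    refine ⟨⟨fun i => ?_, fun i j hij => ?_⟩, ?_⟩
    · have h3 := hv.1 i
      have h4 := hp i
      show μ i - 1 ≤ n - 2 * (i : ℕ)
      omega
    · show μ j - 1 = 0 ∨ μ j - 1 < μ i - 1
      have h3 := hv.2 i j hij
      have h4 := hp i
      have h5 := hp j
      omega
    · show 1 ≤ μ (Fin.last k) - 1
      omega
  · intro μ hμ
    rw [Finset.mem_coe, Finset.mem_filter, mem_LL'] at hμ ⊢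
    obtain ⟨hv, h2⟩ := hμ
    have hp := pos_of_last hv (by omega) h2
    refine ⟨⟨fun i => ?_, fun i j hij => ?_⟩, ?_⟩
    · have h3 := hv.1 i
      have h4 := hp i
      show μ i + 1 ≤ n + 1 - 2 * (i : ℕ)
      omega
    · show μ j + 1 = 0 ∨ μ j + 1 < μ i + 1
      have h3 := hv.2 i j hij
      have h5 := hp j
      omega
    · show 2 ≤ μ (Fin.last k) + 1
      omega
  · intro μ hμ
    rw [Finset.mem_coe, Finset.mem_filter, mem_LL'] at hμ
    funext i
    have := pos_of_last hμ.1 (by omega) hμ.2 i
    show μ i - 1 + 1 = μ i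
    omega
  · intro μ _
    funext i
    show μ i + 1 - 1 = μ i
    omega

/-- states with last part `0` -/
theorem card_zero (n k : ℕ) :
    ((LL n (k + 1)).filter (fun μ => μ (Fin.last (k + 1)) = 0)).card = (LL n k).card := by
  refine Finset.card_nbij' (fun μ => (Fin.init μ : Fin (k + 1) → ℕ))
    (fun μ => (Fin.snoc μ 0 : Fin (k + 2) → ℕ)) ?_ ?_ ?_ ?_
  · intro μ hμ
    rw [Finset.mem_coe, Finset.mem_filter, mem_LL'] at hμ
    rw [Finset.mem_coe, mem_LL']
    obtain ⟨hv, h2⟩ := hμ
    refine ⟨fun i => ?_, fun i j hij => ?_⟩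
    · have := hv.1 i.castSucc
      simpa [Fin.init] using this
    · have := hv.2 i.castSucc j.castSucc (by simpa using hij)
      simpa [Fin.init] using this
  · intro μ hμ
    rw [Finset.mem_coe, mem_LL'] at hμ
    rw [Finset.mem_coe, Finset.mem_filter, mem_LL']
    refine ⟨⟨fun i => ?_, fun i j hij => ?_⟩, by simp⟩
    · refine Fin.lastCases ?_ (fun i => ?_) i
      · simp
      · simpa using hμ.1 i
    · revert hij
      refine Fin.lastCases ?_ (fun j => ?_) j
      · intro _
        left
        simp
      · refine Fin.lastCases ?_ (fun i => ?_) i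
        · intro h
          exact absurd h (not_lt.2 (Fin.le_last _))
        · intro h
          simpa using hμ.2 i j (by simpa using h)
  · intro μ hμ
    rw [Finset.mem_coe, Finset.mem_filter] at hμ
    have h := Fin.snoc_init_self μ
    rw [hμ.2] at h
    exact h
  · intro μ _
    exact Fin.init_snoc _ _

/-- states with last part `1` -/
theorem card_one (n k : ℕ) (hn : 2 * (k + 1) ≤ n) :
    ((LL (n + 1) (k + 1)).filter (fun μ => μ (Fin.last (k + 1)) = 1)).card = (qq n k 1).card := by
  unfold qq
  refine Finset.card_nbij' (fun μ => (fun i => μ i.castSucc - 1 : Fin (k + 1) → ℕ))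
    (fun μ => (Fin.snoc (fun i => μ i + 1) 1 : Fin (k + 2) → ℕ)) ?_ ?_ ?_ ?_
  · intro μ hμ
    rw [Finset.mem_coe, Finset.mem_filter, mem_LL'] at hμ ⊢
    obtain ⟨hv, h2⟩ := hμ
    have hp : ∀ i : Fin (k + 1), 2 ≤ μ i.castSucc := by
      intro i
      have := (hv.2 i.castSucc (Fin.last (k + 1)) (Fin.castSucc_lt_last i)).resolve_left (by omega)
      omega
    refine ⟨⟨fun i => ?_, fun i j hij => ?_⟩, ?_⟩
    · have h3 := hv.1 i.castSucc
      have h4 := hp i
      rw [Fin.val_castSucc] at h3
      show μ i.castSucc - 1 ≤ n - 2 * (i : ℕ)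
      omega
    · show μ j.castSucc - 1 = 0 ∨ μ j.castSucc - 1 < μ i.castSucc - 1
      have h3 := hv.2 i.castSucc j.castSucc (by simpa using hij)
      have h4 := hp i
      have h5 := hp j
      omega
    · show 1 ≤ μ (Fin.last k).castSucc - 1
      have := hp (Fin.last k)
      omega
  · intro μ hμ
    rw [Finset.mem_coe, Finset.mem_filter, mem_LL'] at hμ
    rw [Finset.mem_coe, Finset.mem_filter, mem_LL']
    obtain ⟨hv, h2⟩ := hμ
    have hp := pos_of_last hv (by omega) h2
    refine ⟨⟨fun i => ?_, fun i j hij => ?_⟩, by simp⟩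
    · refine Fin.lastCases ?_ (fun i => ?_) i
      · simp
        omega
      · show (Fin.snoc (fun i => μ i + 1) 1 : Fin (k + 2) → ℕ) i.castSucc ≤
          n + 1 - 2 * ((i.castSucc : Fin (k + 2)) : ℕ)
        rw [Fin.snoc_castSucc, Fin.val_castSucc]
        have h3 := hv.1 i
        have h4 := hp i
        omega
    · revert hij
      refine Fin.lastCases ?_ (fun j => ?_) j
      · refine Fin.lastCases ?_ (fun i => ?_) i
        · intro h
          exact absurd h (lt_irrefl _)
        · intro _
          right
          show (Fin.snoc (fun i => μ i + 1) 1 : Fin (k + 2) → ℕ) (Fin.last (k + 1)) <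
            (Fin.snoc (fun i => μ i + 1) 1 : Fin (k + 2) → ℕ) i.castSucc
          rw [Fin.snoc_castSucc, Fin.snoc_last]
          have h4 := hp i
          omega
      · refine Fin.lastCases ?_ (fun i => ?_) i
        · intro h
          exact absurd h (not_lt.2 (Fin.le_last _))
        · intro h
          right
          show (Fin.snoc (fun i => μ i + 1) 1 : Fin (k + 2) → ℕ) j.castSucc <
            (Fin.snoc (fun i => μ i + 1) 1 : Fin (k + 2) → ℕ) i.castSucc
          rw [Fin.snoc_castSucc, Fin.snoc_castSucc]
          have h3 := hv.2 i j (by simpa using h)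
          have h5 := hp j
          omega
  · intro μ hμ
    rw [Finset.mem_coe, Finset.mem_filter, mem_LL'] at hμ
    obtain ⟨hv, h2⟩ := hμ
    funext i
    show (Fin.snoc (fun i : Fin (k + 1) => μ i.castSucc - 1 + 1) 1 : Fin (k + 2) → ℕ) i = μ i
    refine Fin.lastCases ?_ (fun i => ?_) i
    · rw [Fin.snoc_last, h2]
    · rw [Fin.snoc_castSucc]
      have := (hv.2 i.castSucc (Fin.last (k + 1)) (Fin.castSucc_lt_last i)).resolve_left (by omega)
      omega
  · intro μ _
    funext i
    show (Fin.snoc (fun i => μ i + 1) 1 : Fin (k + 2) → ℕ) i.castSucc - 1 = μ i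
    rw [Fin.snoc_castSucc]
    omega

theorem card_LL_zero (n : ℕ) : (LL n 0).card = n + 1 := by
  have : (LL n 0).card = (Finset.range (n + 1)).card := by
    refine Finset.card_nbij' (fun μ => μ 0) (fun a => fun _ => a) ?_ ?_ ?_ ?_
    · intro μ hμ
      rw [Finset.mem_coe, mem_LL'] at hμ
      rw [Finset.mem_coe, Finset.mem_range]
      have h0 : μ 0 ≤ n := by simpa using hμ.1 0
      show μ 0 < n + 1
      omega
    · intro a ha
      rw [Finset.mem_coe, Finset.mem_range] at ha
      rw [Finset.mem_coe, mem_LL']
      refine ⟨fun i => ?_, fun i j hij => ?_⟩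
      · have : (i : ℕ) = 0 := by omega
        rw [this]
        show a ≤ n - 2 * 0
        omega
      · omega
    · intro μ _
      funext i
      have : i = 0 := by omega
      rw [this]
    · intro a _
      rfl
  rw [this, Finset.card_range]

theorem split_le (n k c : ℕ) : (qq n k c).card =
    ((LL n k).filter (fun μ => μ (Fin.last k) = c)).card + (qq n k (c + 1)).card := by
  unfold qq
  rw [← Finset.card_union_of_disjoint]
  · congr 1
    ext μ
    rw [Finset.mem_union, Finset.mem_filter, Finset.mem_filter, Finset.mem_filter, ← and_or_left]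
    constructor
    · rintro ⟨h1, h2⟩
      exact ⟨h1, by omega⟩
    · rintro ⟨h1, h2⟩
      exact ⟨h1, by omega⟩
  · rw [Finset.disjoint_left]
    intro μ h1 h2
    rw [Finset.mem_filter] at h1 h2
    omega

theorem q_zero (n k : ℕ) : (qq n k 0).card = (LL n k).card := by
  unfold qq
  rw [Finset.filter_true_of_mem (fun _ _ => Nat.zero_le _)]

/-- the number of states with all parts positive -/
theorem q_formula : ∀ (n k : ℕ), 2 * k ≤ n →
    ((qq n k 1).card : ℚ) = ((n + 1).choose (k + 1) : ℚ) - ((n + 1).choose k : ℚ) := by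
  intro n
  induction n with
  | zero =>
    intro k hk
    have hk0 : k = 0 := by omega
    subst hk0
    have h1 := split_le 0 0 0
    rw [q_zero, card_LL_zero] at h1
    have h2 : (qq 0 0 1).card = 0 := by
      rw [Finset.card_eq_zero]
      unfold qq
      rw [Finset.filter_eq_empty_iff]
      intro μ hμ h
      rw [mem_LL'] at hμ
      have := hμ.1 (Fin.last 0)
      omega
    rw [h2]
    simp
  | succ n ih =>
    intro k hk
    cases k with
    | zero =>
      have h1 := split_le (n + 1) 0 0
      rw [q_zero, card_LL_zero] at h1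
      have h2 : ((LL (n + 1) 0).filter (fun μ => μ (Fin.last 0) = 0)).card = 1 := by
        rw [Finset.card_eq_one]
        refine ⟨fun _ => 0, ?_⟩
        ext μ
        rw [Finset.mem_filter, Finset.mem_singleton, mem_LL']
        constructor
        · rintro ⟨_, h⟩
          funext i
          have : i = Fin.last 0 := by
            rw [Fin.ext_iff]
            simp
          rw [this]
          exact h
        · rintro rfl
          exact ⟨⟨fun i => Nat.zero_le _, fun i j _ => Or.inl rfl⟩, rfl⟩
      have h3 : (qq (n + 1) 0 1).card = n + 1 := by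
        have h4 : (qq (n + 1) 0 (0 + 1)).card = n + 1 := by omega
        exact h4
      rw [h3]
      simp
    | succ k =>
      rcases Nat.lt_or_ge (n + 1) (2 * (k + 1) + 1) with hlt | hge
      · -- n + 1 = 2 (k + 1)
        have hn : n + 1 = 2 * (k + 1) := by omega
        have h2 : (qq (n + 1) (k + 1) 1).card = 0 := by
          rw [Finset.card_eq_zero]
          unfold qq
          rw [Finset.filter_eq_empty_iff]
          intro μ hμ h
          rw [mem_LL'] at hμ
          have := hμ.1 (Fin.last (k + 1))
          rw [Fin.val_last] at this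
          omega
        rw [h2]
        have h3 : (n + 1 + 1).choose (k + 1 + 1) = (n + 1 + 1).choose (k + 1) := by
          refine Nat.choose_symm_of_eq_add ?_
          omega
        rw [h3]
        simp
      · have h1 := split_le (n + 1) (k + 1) 1
        rw [card_one n k (by omega), card_shift] at h1
        rw [h1]
        push_cast
        rw [ih k (by omega), ih (k + 1) (by omega)]
        have e1 : (n + 1 + 1).choose (k + 1 + 1) = (n + 1).choose (k + 1) +
          (n + 1).choose (k + 1 + 1) := Nat.choose_succ_succ _ _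
        have e2 : (n + 1 + 1).choose (k + 1) = (n + 1).choose k +
          (n + 1).choose (k + 1) := Nat.choose_succ_succ _ _
        rw [e1, e2]
        push_cast
        ring

theorem c_formula (n : ℕ) : ∀ k : ℕ, 2 * k ≤ n → ((LL n k).card : ℚ) = ((n + 1).choose (k + 1) : ℚ)
  | 0, _ => by
    rw [card_LL_zero]
    simp
  | k + 1, hk => by
    have h1 := split_le n (k + 1) 0
    rw [q_zero, card_zero] at h1
    rw [h1]
    push_cast
    have h2 : ((qq n (k + 1) (0 + 1)).card : ℚ) = _ := q_formula n (k + 1) hk
    rw [c_formula n k (by omega), h2]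
    ring

theorem cnt : S_CNT := by
  intro n k hk
  refine ⟨?_, ?_⟩
  · have := c_formula n k (by omega)
    exact_mod_cast this
  · obtain ⟨m, rfl⟩ : ∃ m, n = m + 1 := ⟨n - 1, by omega⟩
    have h1 : ((LL (m + 1) k).filter (fun μ => 2 ≤ μ (Fin.last k))).card = (qq m k 1).card :=
      card_shift m k
    rw [h1]
    exact q_formula m k (by omega)

end Pool.Agent.W293.TZ
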