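import Pool.Agent.W236.TZ.Defs

set_option autoImplicit false

open scoped Classical
open Finset

namespace Pool.Agent.W293.TZ

open Pool.Agent.W236.TZ

/-- extension by zero -/
noncomputable def ex {k : ℕ} (μ : Fin (k + 1) → ℕ) (i : ℕ) : ℕ :=
  if h : i < k + 1 then μ ⟨i, h⟩ else 0

theorem ex_coe {k : ℕ} (μ : Fin (k + 1) → ℕ) (i : Fin (k + 1)) : ex μ i = μ i := by
  unfold ex
  rw [dif_pos i.2]

theorem ex_lt {k : ℕ} (μ : Fin (k + 1) → ℕ) {i : ℕ} (h : i < k + 1) : ex μ i = μ ⟨i, h⟩ := by
  unfold ex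
  rw [dif_pos h]

theorem ex_ge {k : ℕ} (μ : Fin (k + 1) → ℕ) {i : ℕ} (h : k + 1 ≤ i) : ex μ i = 0 := by
  unfold ex
  rw [dif_neg (by omega)]

theorem ex_dec {n k : ℕ} {μ : Fin (k + 1) → ℕ} (hv : Vd n k μ) {i j : ℕ} (hij : i < j) :
    ex μ j = 0 ∨ ex μ j < ex μ i := by
  by_cases hj : j < k + 1
  · rw [ex_lt μ hj, ex_lt μ (hij.trans hj)]
    exact hv.2 _ _ hij
  · exact Or.inl (ex_ge μ (by omega))

theorem vd_up {n k : ℕ} {μ : Fin (k + 1) → ℕ} (hv : Vd n k μ) (i : Fin (k + 1)) :
    Vd n k (up μ i) ↔ μ i + 1 ≤ n - 2 * (i : ℕ) ∧ ((i : ℕ) = 0 ∨ μ i + 2 ≤ ex μ (i - 1)) := by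
  constructor
  · intro h
    refine ⟨by simpa [up] using h.1 i, ?_⟩
    rcases Nat.eq_zero_or_pos (i : ℕ) with h0 | h0
    · exact Or.inl h0
    · right
      have hlt : (i : ℕ) - 1 < k + 1 := by omega
      have hne : (⟨(i : ℕ) - 1, hlt⟩ : Fin (k + 1)) ≠ i := by
        intro he
        have := congrArg Fin.val he
        simp at this
        omega
      have h1 := h.2 ⟨(i : ℕ) - 1, hlt⟩ i (by
        show (i : ℕ) - 1 < (i : ℕ)
        omega)
      unfold up at h1
      rw [Function.update_self, Function.update_of_ne hne] at h1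
      rw [ex_lt μ hlt]
      omega
  · rintro ⟨h1, h2⟩
    refine ⟨?_, ?_⟩
    · intro j
      unfold up
      by_cases hj : j = i
      · subst hj
        rw [Function.update_self]
        exact h1
      · rw [Function.update_of_ne hj]
        exact hv.1 j
    · intro a b hab
      unfold up
      by_cases hb : b = i
      · subst hb
        rw [Function.update_self, Function.update_of_ne (ne_of_lt hab)]
        right
        rw [Fin.lt_def] at hab
        have h3 : μ b + 2 ≤ ex μ (b - 1) := h2.resolve_left (by omega)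
        rcases Nat.lt_or_ge (a : ℕ) ((b : ℕ) - 1) with h4 | h4
        · have h5 := (ex_dec hv h4).resolve_left (by omega)
          rw [ex_coe] at h5
          omega
        · have h5 : (a : ℕ) = (b : ℕ) - 1 := by omega
          rw [← h5, ex_coe] at h3
          omega
      · rw [Function.update_of_ne hb]
        by_cases ha : a = i
        · subst ha
          rw [Function.update_self]
          rcases hv.2 a b hab with h4 | h4
          · exact Or.inl h4
          · right; omega
        · rw [Function.update_of_ne ha]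
          exact hv.2 a b hab

theorem vd_dn {n k : ℕ} {μ : Fin (k + 1) → ℕ} (hv : Vd n k μ) (i : Fin (k + 1)) (hi : 0 < μ i) :
    Vd n k (dn μ i) ↔ (ex μ (i + 1) = 0 ∨ ex μ (i + 1) + 1 < μ i) := by
  constructor
  · intro h
    by_cases hlt : (i : ℕ) + 1 < k + 1
    · have hne : (⟨(i : ℕ) + 1, hlt⟩ : Fin (k + 1)) ≠ i := by
        intro he
        have := congrArg Fin.val he
        simp at this
      have h1 := h.2 i ⟨(i : ℕ) + 1, hlt⟩ (by
        show (i : ℕ) < (i : ℕ) + 1
        omega)
      unfold dn at h1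
      rw [Function.update_self, Function.update_of_ne hne] at h1
      rw [ex_lt μ hlt]
      omega
    · exact Or.inl (ex_ge μ (by omega))
  · intro h
    refine ⟨?_, ?_⟩
    · intro j
      unfold dn
      by_cases hj : j = i
      · subst hj
        rw [Function.update_self]
        exact (Nat.sub_le _ _).trans (hv.1 j)
      · rw [Function.update_of_ne hj]
        exact hv.1 j
    · intro a b hab
      unfold dn
      by_cases ha : a = i
      · subst ha
        rw [Function.update_self, Function.update_of_ne (ne_of_gt hab)]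
        rw [Fin.lt_def] at hab
        rcases Nat.lt_or_ge ((a : ℕ) + 1) (b : ℕ) with h4 | h4
        · rcases ex_dec hv h4 with h5 | h5
          · left
            rw [ex_coe] at h5
            exact h5
          · rw [ex_coe] at h5
            omega
        · have h5 : (a : ℕ) + 1 = (b : ℕ) := by omega
          rw [h5, ex_coe] at h
          omega
      · rw [Function.update_of_ne ha]
        by_cases hb : b = i
        · subst hb
          rw [Function.update_self]
          rcases hv.2 a b hab with h4 | h4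
          · left; omega
          · right; omega
        · rw [Function.update_of_ne hb]
          exact hv.2 a b hab

/-- the local identity -/
theorem local_id (n i a b : ℕ) (hab : b = 0 ∨ b < a) :
    (if b + 2 ≤ a then Fw n (i + 1) b else 0) -
      (if 0 < a ∧ (b = 0 ∨ b + 1 < a) then Fw n i (a - 1) + 1 else 0) =
    Fw n (i + 1) b - Fw n i a - 1 / 2 := by
  unfold Fw
  rcases Nat.eq_zero_or_pos b with hb | hb
  · subst hb
    rcases Nat.lt_or_ge a 2 with ha | ha
    · interval_cases a
      · simp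
        push_cast
        ring
      · simp
        push_cast
        ring
    · obtain ⟨c, rfl⟩ : ∃ c, a = c + 2 := ⟨a - 2, by omega⟩
      have e1 : c + 2 - 1 = c + 1 := by omega
      rw [e1, if_pos (show 0 + 2 ≤ c + 2 by omega),
        if_pos (show 0 < c + 2 ∧ (0 = 0 ∨ 0 + 1 < c + 2) from ⟨by omega, Or.inl rfl⟩),
        if_pos (show 0 = 0 from rfl), if_neg (show ¬ c + 1 = 0 by omega),
        if_neg (show ¬ c + 2 = 0 by omega)]
      push_cast
      ring
  · have hlt : b < a := hab.resolve_left (by omega)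
    rcases Nat.lt_or_ge a (b + 2) with ha | ha
    · have : a = b + 1 := by omega
      subst this
      rw [if_neg (show ¬ b + 2 ≤ b + 1 by omega),
        if_neg (show ¬ (0 < b + 1 ∧ (b = 0 ∨ b + 1 < b + 1)) by omega),
        if_neg (show ¬ b = 0 by omega), if_neg (show ¬ b + 1 = 0 by omega)]
      push_cast
      ring
    · obtain ⟨c, rfl⟩ : ∃ c, a = b + c + 2 := ⟨a - b - 2, by omega⟩
      have e1 : b + c + 2 - 1 = b + c + 1 := by omega
      rw [e1, if_pos (show b + 2 ≤ b + c + 2 by omega),
        if_pos (show 0 < b + c + 2 ∧ (b = 0 ∨ b + 1 < b + c + 2) from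
          ⟨by omega, Or.inr (by omega)⟩),
        if_neg (show ¬ b = 0 by omega), if_neg (show ¬ b + c + 1 = 0 by omega),
        if_neg (show ¬ b + c + 2 = 0 by omega)]
      push_cast
      ring

theorem k_ : S_K := by
  intro n k hk μ hv
  set a := ex μ with ha
  -- the add terms
  set A : ℕ → ℚ := fun i => if i = 0 ∨ a i + 2 ≤ a (i - 1) then Fw n i (a i) else 0 with hA
  set R : ℕ → Prop := fun i => 0 < a i ∧ (a (i + 1) = 0 ∨ a (i + 1) + 1 < a i) with hR
  have h1 : (∑ i : Fin (k + 1), if Vd n k (up μ i) then Fw n i (μ i) else 0) =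
      ∑ i ∈ range (k + 1), A i := by
    rw [← Fin.sum_univ_eq_sum_range]
    refine Finset.sum_congr rfl fun i _ => ?_
    rw [hA]
    simp only [ha, ex_coe]
    rw [vd_up hv i]
    by_cases h2 : (i : ℕ) = 0 ∨ μ i + 2 ≤ ex μ (i - 1)
    · rw [if_pos h2]
      by_cases h3 : μ i + 1 ≤ n - 2 * (i : ℕ)
      · rw [if_pos ⟨h3, h2⟩]
      · rw [if_neg (fun h => h3 h.1)]
        have h4 := hv.1 i
        have h5 : μ i = n - 2 * (i : ℕ) := by omega
        have h6 : 2 * (i : ℕ) < n := by omega
        unfold Fw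
        rw [if_neg (by omega), h5, Nat.cast_sub h6.le]
        push_cast
        ring
    · rw [if_neg h2, if_neg (fun h => h2 h.2)]
  have h2 : (if 2 ≤ μ (Fin.last k) then Fw n (k + 1) 0 else 0) = A (k + 1) := by
    rw [hA]
    have e1 : a (k + 1) = 0 := ex_ge μ le_rfl
    have e2 : a (k + 1 - 1) = μ (Fin.last k) := by
      rw [Nat.add_sub_cancel]
      exact ex_lt μ (Nat.lt_succ_self k)
    show _ = if k + 1 = 0 ∨ a (k + 1) + 2 ≤ a (k + 1 - 1) then Fw n (k + 1) (a (k + 1)) else 0
    rw [e1, e2]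
    simp
  have hRi : ∀ i : Fin (k + 1), (0 < μ i ∧ Vd n k (dn μ i)) ↔ R i := by
    intro i
    rw [hR]
    simp only [ha, ex_coe]
    constructor
    · rintro ⟨h3, h4⟩
      exact ⟨h3, (vd_dn hv i h3).1 h4⟩
    · rintro ⟨h3, h4⟩
      exact ⟨h3, (vd_dn hv i h3).2 h4⟩
  have h3 : (∑ i : Fin (k + 1), if 0 < μ i ∧ Vd n k (dn μ i) then Fw n i (μ i - 1) else 0) =
      ∑ i ∈ range (k + 1), if R i then Fw n i (a i - 1) else 0 := by
    rw [← Fin.sum_univ_eq_sum_range (fun i => if R i then Fw n i (a i - 1) else 0)]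
    refine Finset.sum_congr rfl fun i _ => ?_
    simp only [hRi i, ha, ex_coe]
  have h4 : (Dg n k μ : ℚ) = ∑ i ∈ range (k + 1), if R i then (1 : ℚ) else 0 := by
    unfold Dg
    rw [← Fin.sum_univ_eq_sum_range (fun i => if R i then (1 : ℚ) else 0), Finset.card_filter]
    push_cast
    refine Finset.sum_congr rfl fun i _ => ?_
    simp only [hRi i]
  rw [h1, h2, h3, h4, ← Finset.sum_range_succ, Finset.sum_range_succ']
  have hA0 : A 0 = Fw n 0 (a 0) := by
    rw [hA]
    simp
  rw [hA0]
  have h5 : ∀ i ∈ range (k + 1), A (i + 1) = (if R i then Fw n i (a i - 1) else 0) +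
      (if R i then (1 : ℚ) else 0) + (Fw n (i + 1) (a (i + 1)) - Fw n i (a i) - 1 / 2) := by
    intro i _
    rw [← local_id n i (a i) (a (i + 1)) (ex_dec hv (Nat.lt_succ_self i))]
    have e1 : A (i + 1) = if a (i + 1) + 2 ≤ a i then Fw n (i + 1) (a (i + 1)) else 0 := by
      rw [hA]
      simp
    rw [e1]
    by_cases hr : R i
    · have hr' : 0 < a i ∧ (a (i + 1) = 0 ∨ a (i + 1) + 1 < a i) := hr
      rw [if_pos hr, if_pos hr, if_pos hr']
      ring
    · have hr' : ¬ (0 < a i ∧ (a (i + 1) = 0 ∨ a (i + 1) + 1 < a i)) := hr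
      rw [if_neg hr, if_neg hr, if_neg hr']
      ring
  rw [Finset.sum_congr rfl h5, Finset.sum_add_distrib, Finset.sum_add_distrib,
    Finset.sum_sub_distrib, Finset.sum_range_sub (fun i => Fw n i (a i))]
  have e1 : a (k + 1) = 0 := ex_ge μ le_rfl
  rw [e1]
  simp only [Finset.sum_const, Finset.card_range, nsmul_eq_mul]
  have e2 : Fw n (k + 1) 0 = ((k : ℚ) + 1) / 2 - ((n : ℚ) + 1) / 4 := by
    unfold Fw
    rw [if_pos rfl]
    push_cast
    ring
  rw [e2]
  push_cast
  ring

end Pool.Agent.W293.TZ
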